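import Pool.Agent.H53.MW.Targets

/-!
# Row DEC: decompositions into spread parts exist
-/

set_option autoImplicit false

namespace Pool.Agent.H42.MWK

open Finset
open Pool.Agent.H53.MC (Clause Falsified SatBy Line Circuit U Viol toC scope Ins cnt H1 Covers InR
  Bad cf)
open Pool.Agent.H53.MW

private theorem dec_ex (hINV : T_INV) (hHC : T_HC) {n M k : ℕ} (g : Fin M → Fin k → Fin n)
    (d s₀ θ : ℕ) (N : ℕ) : ∀ R : Finset (Fin n → Bool), R.card ≤ N →
    ∃ 𝒟, Dec g d s₀ θ (θ * 2 ^ (d * s₀)) R 𝒟 := by
  induction N with
  | zero =>
    intro R hR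
    have hR' : R = ∅ := Finset.card_eq_zero.1 (Nat.le_zero.1 hR)
    refine ⟨∅, ⟨?_, ?_, ?_, ?_, ?_⟩⟩
    · intro p hp; simp at hp
    · intro p hp; simp at hp
    · intro p hp; simp at hp
    · intro p hp; simp at hp
    · rw [hR']; simp
  | succ N ih =>
    intro R hR
    rcases R.eq_empty_or_nonempty with h0 | h0
    · refine ⟨∅, ⟨?_, ?_, ?_, ?_, ?_⟩⟩
      · intro p hp; simp at hp
      · intro p hp; simp at hp
      · intro p hp; simp at hp
      · intro p hp; simp at hp
      · rw [h0]; simp
    · obtain ⟨A, x, hSp, hcard⟩ := hHC g d s₀ R h0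
      by_cases hθ : (cb R A x).card < θ
      · refine ⟨∅, ⟨?_, ?_, ?_, ?_, ?_⟩⟩
        · intro p hp; simp at hp
        · intro p hp; simp at hp
        · intro p hp; simp at hp
        · intro p hp; simp at hp
        · rw [Finset.biUnion_empty, Finset.sdiff_empty]
          exact hcard.trans (Nat.mul_le_mul_right _ hθ.le)
      · rw [not_lt] at hθ
        have hQR : cb R A x ⊆ R := Finset.filter_subset _ _
        have hlt : (R \ cb R A x).card < R.card := by
          rw [Finset.card_sdiff_of_subset hQR]
          have h1 : 0 < (cb R A x).card := Finset.card_pos.2 hSp.ne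
          have h2 : 0 < R.card := Finset.card_pos.2 h0
          omega
        obtain ⟨𝒟, h𝒟⟩ := ih (R \ cb R A x) (by omega)
        have hdisj : ∀ p ∈ 𝒟, Disjoint (cb R A x) p.1 := by
          intro p hp
          rw [Finset.disjoint_left]
          intro y hy hy'
          have h1 := h𝒟.sub p hp hy'
          rw [Finset.mem_sdiff] at h1
          exact h1.2 hy
        refine ⟨insert (cb R A x, A) 𝒟, ⟨?_, ?_, ?_, ?_, ?_⟩⟩
        · intro p hp
          rw [Finset.mem_insert] at hp
          rcases hp with rfl | hp
          · exact hQR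
          · exact (h𝒟.sub p hp).trans Finset.sdiff_subset
        · intro p hp p' hp' hne
          rw [Finset.mem_insert] at hp hp'
          rcases hp with rfl | hp
          · rcases hp' with rfl | hp'
            · exact absurd rfl hne
            · exact hdisj p' hp'
          · rcases hp' with rfl | hp'
            · exact (hdisj p hp).symm
            · exact h𝒟.dis p hp p' hp' hne
        · intro p hp y hy
          rw [Finset.mem_insert] at hp
          rcases hp with rfl | hp
          · refine hINV g d s₀ A x y (cb R A x) ?_ hSp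
            intro i hi
            unfold cb at hy
            exact ((Finset.mem_filter.1 hy).2 i hi).symm
          · exact h𝒟.spr p hp y hy
        · intro p hp
          rw [Finset.mem_insert] at hp
          rcases hp with rfl | hp
          · exact hθ
          · exact h𝒟.big p hp
        · refine le_trans (Finset.card_le_card ?_) h𝒟.rest
          intro y hy
          rw [Finset.biUnion_insert, Finset.mem_sdiff, Finset.mem_union, not_or] at hy
          rw [Finset.mem_sdiff, Finset.mem_sdiff]
          exact ⟨⟨hy.1, hy.2.1⟩, hy.2.2⟩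

theorem pf_DEC (hINV : T_INV) (hHC : T_HC) : T_DEC := by
  intro n M k g d s₀ θ hθ R
  have h := dec_ex hINV hHC g d s₀ θ R.card R le_rfl
  unfold dc
  rw [dif_pos h]
  exact h.choose_spec

end Pool.Agent.H42.MWK
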